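import Pool.Agent.R280.AtomThm

/-!
# MP_100021_an, Q1

The order continuous functionals on a projective Banach lattice are determined by its atoms.
-/

set_option autoImplicit false

universe u

namespace Pool.Agent.Results.MP_100021_an.OrderContinuousAtoms

open Pool.Agent.R280.BLat

/-- An order continuous functional on a projective Banach lattice which vanishes at all atoms is
zero. -/
theorem result (X : Type u) [NormedAddCommGroup X] [NormedSpace ℝ X] [Lattice X]
    [BanachLattice X] (hX : IsProjective.{u, u} X) (f : X →L[ℝ] ℝ) (hf : IsOrderCont f)
    (hfa : ∀ a : X, IsAtomEl a → f a = 0) : f = 0 :=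
  orderCont_eq_zero hX hf hfa

end Pool.Agent.Results.MP_100021_an.OrderContinuousAtoms
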